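import Pool.Agent.H586.AF.E

/-!
# Project AH, task SB: scaling limit of the function `bb` (helper840 for helper586)
-/

set_option autoImplicit false

open MeasureTheory Matrix Finset Filter Topology

namespace Pool.Agent.H840.AH

noncomputable section

open Pool.Agent.H586.AF

namespace SBL

/-- periodic functions -/
lemma per_sum (L : ℕ) (hL : 1 ≤ L) (f : ℤ → ℝ) (hf : ∀ z, f (z + 2 * L) = f z) :
    ∑ z ∈ Finset.Ico (0 : ℤ) (2 * L), f z = ∑ z ∈ Finset.Ico (-(L : ℤ)) L, f z := by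
  refine Finset.sum_nbij' (fun z => if z < L then z else z - 2 * L)
    (fun z => if z < 0 then z + 2 * L else z) ?_ ?_ ?_ ?_ ?_
  · intro z hz
    rw [Finset.mem_Ico] at hz ⊢
    split_ifs <;> omega
  · intro z hz
    rw [Finset.mem_Ico] at hz ⊢
    split_ifs <;> omega
  · intro z hz
    rw [Finset.mem_Ico] at hz
    split_ifs <;> omega
  · intro z hz
    rw [Finset.mem_Ico] at hz
    split_ifs <;> omega
  · intro z hz
    split_ifs with h
    · rfl
    · have := hf (z - 2 * L)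
      rw [sub_add_cancel] at this
      exact this

lemma riem (F V : ℝ → ℝ) (L : ℕ) (hL : 1 ≤ L) (hF : Continuous F)
    (hV : ∀ x y, 0 ≤ x → x ≤ y → y ≤ Real.pi → |F y - F x| ≤ V y - V x) :
    |∑ n ∈ Finset.range L, F (Real.pi * n / L) - L * (1 / Real.pi * ∫ x in (0 : ℝ)..Real.pi, F x)| ≤
      V Real.pi - V 0 := by
  have hL0 : (0 : ℝ) < L := by positivity
  have hpi := Real.pi_pos
  obtain ⟨a, ha⟩ : ∃ a : ℕ → ℝ, a = fun n : ℕ => Real.pi * n / L := ⟨_, rfl⟩
  have ha0 : a 0 = 0 := by rw [ha]; simp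
  have haL : a L = Real.pi := by rw [ha]; field_simp
  have hstep : ∀ n, a (n + 1) - a n = Real.pi / L := by
    intro n
    rw [ha]
    simp only
    push_cast
    ring
  have hint := intervalIntegral.sum_integral_adjacent_intervals (f := F) (μ := volume) (a := a)
    (n := L) (fun k _ => hF.intervalIntegrable _ _)
  rw [ha0, haL] at hint
  rw [← hint]
  have e1 : ∑ n ∈ Finset.range L, F (Real.pi * n / L) -
      L * (1 / Real.pi * ∑ k ∈ Finset.range L, ∫ x in a k..a (k + 1), F x) =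
      ∑ k ∈ Finset.range L, (F (a k) - L / Real.pi * ∫ x in a k..a (k + 1), F x) := by
    rw [Finset.sum_sub_distrib, ← Finset.mul_sum, ha]
    ring
  rw [e1]
  have h2 : ∀ k ∈ Finset.range L, |F (a k) - L / Real.pi * ∫ x in a k..a (k + 1), F x| ≤
      V (a (k + 1)) - V (a k) := by
    intro k hk
    rw [Finset.mem_range] at hk
    have hk0 : 0 ≤ a k := by rw [ha]; positivity
    have hk1 : a k ≤ a (k + 1) := by
      have := hstep k
      have : 0 < Real.pi / L := by positivity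
      linarith
    have hk2 : a (k + 1) ≤ Real.pi := by
      rw [ha]
      simp only
      rw [div_le_iff₀ hL0]
      have : ((k + 1 : ℕ) : ℝ) ≤ L := by exact_mod_cast hk
      exact mul_le_mul_of_nonneg_left this hpi.le
    have e2 : F (a k) - L / Real.pi * ∫ x in a k..a (k + 1), F x =
        L / Real.pi * ∫ x in a k..a (k + 1), (F (a k) - F x) := by
      rw [intervalIntegral.integral_sub (by simp) (hF.intervalIntegrable _ _),
        intervalIntegral.integral_const, hstep, smul_eq_mul, mul_sub]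
      congr 1
      field_simp
    have h3 : ‖∫ x in a k..a (k + 1), (F (a k) - F x)‖ ≤
        (V (a (k + 1)) - V (a k)) * |a (k + 1) - a k| := by
      refine intervalIntegral.norm_integral_le_of_norm_le_const fun x hx => ?_
      rw [Set.uIoc_of_le hk1] at hx
      have h4 := hV (a k) x hk0 hx.1.le (hx.2.trans hk2)
      have h5 := hV x (a (k + 1)) (hk0.trans hx.1.le) hx.2 hk2
      have h6 := abs_nonneg (F (a (k + 1)) - F x)
      rw [Real.norm_eq_abs, abs_sub_comm]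
      linarith
    rw [e2, abs_mul, abs_of_pos (show 0 < (L : ℝ) / Real.pi by positivity)]
    rw [Real.norm_eq_abs, hstep, abs_of_pos (show 0 < Real.pi / (L : ℝ) by positivity)] at h3
    calc (L : ℝ) / Real.pi * |∫ x in a k..a (k + 1), (F (a k) - F x)| ≤
        L / Real.pi * ((V (a (k + 1)) - V (a k)) * (Real.pi / L)) :=
          mul_le_mul_of_nonneg_left h3 (by positivity)
      _ = _ := by field_simp
  refine (Finset.abs_sum_le_sum_abs _ _).trans ((Finset.sum_le_sum h2).trans (le_of_eq ?_))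
  rw [Finset.sum_range_sub (fun i => V (a i)), ha0, haL]


/-! ### Spectral form of the kernels -/

/-- the frequencies -/
def TT (L : ℕ) : Finset ℤ := Finset.Ico (-(L : ℤ)) L

def EE (L : ℕ) (τ : ℝ) (n : ℤ) : ℝ := Real.exp (-τ * ek (Real.pi * n / L))

lemma rr_int (L : ℕ) (hL : 1 ≤ L) (τ : ℝ) (z : ℤ) :
    rr L τ z = (1 / (2 * (L : ℝ))) * ∑ n ∈ TT L, EE L τ n * Real.cos (Real.pi * n / L * z) := by
  have hL0 : (L : ℝ) ≠ 0 := by positivity
  unfold rr
  congr 1
  have h1 : ∑ n ∈ Finset.range (2 * L), Real.exp (-τ * ek (Real.pi * n / L)) *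
      Real.cos (Real.pi * n / L * z) =
      ∑ n ∈ Finset.Ico (0 : ℤ) (2 * L), EE L τ n * Real.cos (Real.pi * n / L * z) := by
    refine Finset.sum_nbij' (fun m : ℕ => (m : ℤ)) (fun z : ℤ => z.toNat) ?_ ?_ ?_ ?_ ?_
    · intro m hm
      rw [Finset.mem_range] at hm
      rw [Finset.mem_Ico]
      omega
    · intro z hz
      rw [Finset.mem_Ico] at hz
      rw [Finset.mem_range]
      omega
    · intro m _
      simp
    · intro z hz
      rw [Finset.mem_Ico] at hz
      omega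
    · intro m _
      unfold EE
      push_cast
      rfl
  rw [h1]
  refine per_sum L hL (fun n : ℤ => EE L τ n * Real.cos (Real.pi * n / L * z)) fun n => ?_
  have e1 : Real.pi * ((n + 2 * (L : ℤ) : ℤ) : ℝ) / L = Real.pi * n / L + 2 * Real.pi := by
    push_cast
    field_simp
  have e2 : (Real.pi * n / L + 2 * Real.pi) * (z : ℝ) = Real.pi * n / L * z + z * (2 * Real.pi) := by
    ring
  unfold EE ek
  rw [e1, e2, Real.cos_add_int_mul_two_pi, Real.cos_add_two_pi]

def vD (L : ℕ) (n : ℤ) : Fin (L - 1) → ℝ := fun i => Real.sin (Real.pi * n / L * ((i : ℕ) + 1))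

def vN (L : ℕ) (n : ℤ) : Fin L → ℝ := fun i => Real.cos (Real.pi * n / L * ((i : ℕ) + 1 / 2))

lemma hkD (hR : S_R) (L : ℕ) (hL : 2 ≤ L) (τ : ℝ) :
    hk (lDD L) τ = (1 / (L : ℝ)) • ∑ n ∈ TT L, EE L τ n • vecMulVec (vD L n) (vD L n) := by
  ext i j
  rw [(hR L hL τ).1 i j, rr_int L (by omega), rr_int L (by omega), Matrix.smul_apply,
    Matrix.sum_apply, ← mul_sub, ← Finset.sum_sub_distrib, smul_eq_mul]
  have e : (1 / (2 * (L : ℝ))) = 1 / L * (1 / 2) := by ring
  rw [e, mul_assoc, Finset.mul_sum]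
  congr 1
  refine Finset.sum_congr rfl fun n _ => ?_
  rw [Matrix.smul_apply, vecMulVec_apply, smul_eq_mul]
  unfold vD
  set x := Real.pi * n / L
  have h1 : x * (((i : ℤ) - j : ℤ) : ℝ) = x * ((i : ℕ) + 1) - x * ((j : ℕ) + 1) := by
    push_cast
    ring
  have h2 : x * (((i : ℤ) + j + 2 : ℤ) : ℝ) = x * ((i : ℕ) + 1) + x * ((j : ℕ) + 1) := by
    push_cast
    ring
  rw [h1, h2, Real.cos_sub, Real.cos_add]
  ring

lemma hkN (hR : S_R) (L : ℕ) (hL : 2 ≤ L) (τ : ℝ) :
    hk (lNN L) τ = (1 / (L : ℝ)) • ∑ n ∈ TT L, EE L τ n • vecMulVec (vN L n) (vN L n) := by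
  ext i j
  rw [(hR L hL τ).2 i j, rr_int L (by omega), rr_int L (by omega), Matrix.smul_apply,
    Matrix.sum_apply, ← mul_add, ← Finset.sum_add_distrib, smul_eq_mul]
  have e : (1 / (2 * (L : ℝ))) = 1 / L * (1 / 2) := by ring
  rw [e, mul_assoc, Finset.mul_sum]
  congr 1
  refine Finset.sum_congr rfl fun n _ => ?_
  rw [Matrix.smul_apply, vecMulVec_apply, smul_eq_mul]
  unfold vN
  set x := Real.pi * n / L
  have h1 : x * (((i : ℤ) - j : ℤ) : ℝ) = x * ((i : ℕ) + 1 / 2) - x * ((j : ℕ) + 1 / 2) := by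
    push_cast
    ring
  have h2 : x * (((i : ℤ) + j + 1 : ℤ) : ℝ) = x * ((i : ℕ) + 1 / 2) + x * ((j : ℕ) + 1 / 2) := by
    push_cast
    ring
  rw [h1, h2, Real.cos_sub, Real.cos_add]
  ring

/-- `q n m = v_n · K v_m` -/
def qq {N : ℕ} (v : ℤ → Fin N → ℝ) (n m : ℤ) : ℝ := v n ⬝ᵥ (km N *ᵥ v m)

lemma bb_eq {N : ℕ} (A : Matrix (Fin N) (Fin N) ℝ) (c : ℝ) (T : Finset ℤ) (E1 E2 : ℤ → ℝ)
    (v : ℤ → Fin N → ℝ) (τ σ : ℝ)
    (h1 : hk A τ = c • ∑ n ∈ T, E1 n • vecMulVec (v n) (v n))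
    (h2 : hk A σ = c • ∑ n ∈ T, E2 n • vecMulVec (v n) (v n)) :
    bb A τ σ = -(c * c) * ∑ n ∈ T, ∑ m ∈ T, E1 n * E2 m * (qq v n m * qq v m n) := by
  have a1 : km N * hk A τ = c • ∑ n ∈ T, E1 n • vecMulVec (km N *ᵥ v n) (v n) := by
    rw [h1, Matrix.mul_smul, Matrix.mul_sum]
    congr 1
    exact Finset.sum_congr rfl fun n _ => by rw [Matrix.mul_smul, Matrix.mul_vecMulVec]
  have a2 : km N * hk A σ = c • ∑ n ∈ T, E2 n • vecMulVec (km N *ᵥ v n) (v n) := by
    rw [h2, Matrix.mul_smul, Matrix.mul_sum]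
    congr 1
    exact Finset.sum_congr rfl fun n _ => by rw [Matrix.mul_smul, Matrix.mul_vecMulVec]
  unfold bb
  rw [Matrix.mul_assoc (km N * hk A τ), a1, a2, Matrix.smul_mul, Matrix.mul_smul, smul_smul,
    Finset.sum_mul_sum, Matrix.trace_smul, Matrix.trace_sum, smul_eq_mul, neg_mul]
  congr 2
  refine Finset.sum_congr rfl fun n _ => ?_
  rw [Matrix.trace_sum]
  refine Finset.sum_congr rfl fun m _ => ?_
  rw [Matrix.smul_mul, Matrix.mul_smul, vecMulVec_mul_vecMulVec, Matrix.trace_smul, Matrix.trace_smul,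
    Matrix.trace_vecMulVec]
  unfold qq
  rw [dotProduct_smul, dotProduct_comm (km N *ᵥ v n) (v m)]
  simp only [smul_eq_mul]
  ring

/-- the action of the current matrix -/
lemma kmul (N : ℕ) (f : ℕ → ℝ) (i : Fin N) : (km N *ᵥ fun j : Fin N => f (j : ℕ)) i =
    (if 1 ≤ (i : ℕ) then f (i - 1) else 0) - (if (i : ℕ) + 1 < N then f (i + 1) else 0) := by
  unfold km Matrix.mulVec dotProduct
  have e : ∀ j : Fin N, ((tm N)ᵀ - tm N) i j * f (j : ℕ) =
      (fun k : ℕ => (if (i : ℕ) = k + 1 then f k else 0) - (if k = (i : ℕ) + 1 then f k else 0)) j := by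
    intro j
    rw [Matrix.sub_apply, Matrix.transpose_apply]
    unfold tm
    simp only [sub_mul, ite_mul, one_mul, zero_mul]
  rw [Finset.sum_congr rfl fun j _ => e j, Fin.sum_univ_eq_sum_range
    (fun k : ℕ => (if (i : ℕ) = k + 1 then f k else 0) - (if k = (i : ℕ) + 1 then f k else 0)) N,
    Finset.sum_sub_distrib, Finset.sum_ite_eq']
  congr 1
  · have hi := i.2
    split_ifs with h
    · rw [Finset.sum_eq_single ((i : ℕ) - 1)]
      · rw [if_pos (by omega)]
      · intro k _ hk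
        rw [if_neg (by omega)]
      · intro hk
        exact absurd (Finset.mem_range.2 (by omega)) hk
    · exact Finset.sum_eq_zero fun k _ => by rw [if_neg (by omega)]
  · simp only [Finset.mem_range]

lemma lip2 {a a' b b' : ℝ} (hb : |b| ≤ 1) (ha' : |a'| ≤ 1) :
    |a * b - a' * b'| ≤ |a - a'| + |b - b'| := by
  have e : a * b - a' * b' = (a - a') * b + a' * (b - b') := by ring
  rw [e]
  refine (abs_add_le _ _).trans ?_
  rw [abs_mul, abs_mul]
  have h1 := mul_le_mul_of_nonneg_left hb (abs_nonneg (a - a'))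
  have h2 := mul_le_mul_of_nonneg_right ha' (abs_nonneg (b - b'))
  linarith

lemma lipSC (n m : ℝ) (x y : ℝ) : |Real.sin (n * y) * Real.cos (m * y) - Real.sin (n * x) * Real.cos (m * x)| ≤
    (|n| + |m|) * |y - x| := by
  refine (lip2 (Real.abs_cos_le_one _) (Real.abs_sin_le_one _)).trans ?_
  have h1 := Real.abs_sin_sub_sin_le (n * y) (n * x)
  have h2 := Real.abs_cos_sub_cos_le (m * y) (m * x)
  rw [← mul_sub, abs_mul] at h1 h2
  linarith

lemma lipCS (n m : ℝ) (x y : ℝ) : |Real.cos (n * y) * Real.sin (m * y) - Real.cos (n * x) * Real.sin (m * x)| ≤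
    (|n| + |m|) * |y - x| := by
  refine (lip2 (Real.abs_sin_le_one _) (Real.abs_cos_le_one _)).trans ?_
  have h1 := Real.abs_cos_sub_cos_le (n * y) (n * x)
  have h2 := Real.abs_sin_sub_sin_le (m * y) (m * x)
  rw [← mul_sub, abs_mul] at h1 h2
  linarith

/-- Riemann sums -/
lemma rlim (F : ℝ → ℝ) (K : ℝ) (hF : Continuous F) (hlip : ∀ x y, |F y - F x| ≤ K * |y - x|)
    (c : ℝ) (hc : 0 ≤ c) :
    Tendsto (fun L : ℕ => (1 / (L : ℝ)) * ∑ k ∈ Finset.range L, F (Real.pi * k / L + c / L)) atTop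
      (𝓝 (1 / Real.pi * ∫ x in (0 : ℝ)..Real.pi, F x)) := by
  rw [← tendsto_sub_nhds_zero_iff]
  refine squeeze_zero_norm' (a := fun L : ℕ => (K * Real.pi + K * c) / L) ?_
    (tendsto_const_div_atTop_nhds_zero_nat _)
  filter_upwards [eventually_ge_atTop 1] with L hL
  have hL0 : (0 : ℝ) < L := by positivity
  have h1 := riem F (fun x => K * x) L hL hF (fun x y _ hxy _ => by
    have := hlip x y
    rw [abs_of_nonneg (sub_nonneg.2 hxy)] at this
    linarith)
  rw [mul_zero, sub_zero] at h1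
  have h2 : |∑ k ∈ Finset.range L, F (Real.pi * k / L + c / L) - ∑ k ∈ Finset.range L, F (Real.pi * k / L)| ≤
      K * c := by
    rw [← Finset.sum_sub_distrib]
    refine (Finset.abs_sum_le_sum_abs _ _).trans ?_
    have h3 : ∀ k ∈ Finset.range L, |F (Real.pi * k / L + c / L) - F (Real.pi * k / L)| ≤ K * (c / L) := by
      intro k _
      have := hlip (Real.pi * k / L) (Real.pi * k / L + c / L)
      rwa [add_sub_cancel_left, abs_of_nonneg (show 0 ≤ c / L by positivity)] at this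
    refine (Finset.sum_le_sum h3).trans (le_of_eq ?_)
    rw [Finset.sum_const, Finset.card_range, nsmul_eq_mul]
    field_simp
  set I := 1 / Real.pi * ∫ x in (0 : ℝ)..Real.pi, F x
  set S1 := ∑ k ∈ Finset.range L, F (Real.pi * k / L + c / L)
  set S0 := ∑ k ∈ Finset.range L, F (Real.pi * k / L)
  have e : 1 / (L : ℝ) * S1 - I = 1 / L * ((S1 - S0) + (S0 - L * I)) := by
    field_simp
    ring
  rw [e, Real.norm_eq_abs, abs_mul, abs_of_pos (show 0 < 1 / (L : ℝ) by positivity)]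
  have h4 := abs_add_le (S1 - S0) (S0 - L * I)
  rw [one_div, inv_mul_eq_div]
  gcongr
  linarith

lemma sinlim (a : ℝ) : Tendsto (fun L : ℕ => (L : ℝ) * Real.sin (a / L)) atTop (𝓝 a) := by
  rcases eq_or_ne a 0 with rfl | ha
  · simp
  have h1 := (Real.hasDerivAt_sin 0).tendsto_slope_zero
  have h2 : Tendsto (fun L : ℕ => a / (L : ℝ)) atTop (𝓝[≠] 0) := by
    rw [tendsto_nhdsWithin_iff]
    refine ⟨tendsto_const_div_atTop_nhds_zero_nat a, ?_⟩
    filter_upwards [eventually_ge_atTop 1] with L hL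
    have hL0 : (L : ℝ) ≠ 0 := by positivity
    exact div_ne_zero ha hL0
  have h3 := (h1.comp h2).const_mul a
  rw [Real.cos_zero, mul_one] at h3
  refine h3.congr' ?_
  filter_upwards [eventually_ge_atTop 1] with L hL
  have hL0 : (L : ℝ) ≠ 0 := by positivity
  simp only [Function.comp, zero_add, Real.sin_zero, sub_zero, smul_eq_mul]
  field_simp

lemma ek_eq (x : ℝ) : ek x = (2 * Real.sin (x / 2)) ^ 2 := by
  unfold ek
  have h := Real.cos_two_mul (x / 2)
  have h2 := Real.sin_sq_add_cos_sq (x / 2)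
  rw [mul_div_cancel₀ x (two_ne_zero)] at h
  rw [h]
  nlinarith

lemma EE_lim (t : ℝ) (n : ℤ) : Tendsto (fun L : ℕ => EE L ((L : ℝ) ^ 2 * t) n) atTop
    (𝓝 (Real.exp (-t * (Real.pi * n) ^ 2))) := by
  have h1 := (sinlim (Real.pi * n / 2)).const_mul 2
  have h2 := ((h1.pow 2).const_mul (-t)).rexp
  rw [mul_div_cancel₀ _ (two_ne_zero (α := ℝ))] at h2
  refine h2.congr fun L => ?_
  unfold EE
  congr 1
  rw [ek_eq, div_right_comm]
  ring

lemma EE_bd (t : ℝ) (ht : 0 < t) (L : ℕ) (hL : 1 ≤ L) (n : ℤ) (hn : n ∈ TT L) :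
    EE L ((L : ℝ) ^ 2 * t) n ≤ Real.exp (-(4 * t * (n : ℝ) ^ 2)) := by
  have hL0 : (0 : ℝ) < L := by positivity
  have hpi := Real.pi_pos
  unfold EE
  apply Real.exp_le_exp.2
  rw [TT, Finset.mem_Ico] at hn
  have hn' : |(n : ℝ)| ≤ L := by
    rw [abs_le]
    exact ⟨by exact_mod_cast hn.1, by exact_mod_cast hn.2.le⟩
  set y := |Real.pi * n / L / 2| with hy
  have hy1 : y = Real.pi / 2 * (|(n : ℝ)| / L) := by
    rw [hy, abs_div, abs_div, abs_mul, abs_of_pos hpi, abs_of_pos hL0, abs_two]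
    ring
  have hy2 : y ≤ Real.pi / 2 := by
    rw [hy1]
    have : |(n : ℝ)| / L ≤ 1 := by rwa [div_le_one hL0]
    have h3 := mul_le_mul_of_nonneg_left this (show 0 ≤ Real.pi / 2 by positivity)
    linarith
  have h1 := Real.mul_le_sin (abs_nonneg _) hy2
  have h2 : (2 * Real.sin y) ^ 2 = ek (Real.pi * n / L) := by
    rw [ek_eq, hy, mul_pow, mul_pow]
    congr 1
    rcases abs_choice (Real.pi * n / L / 2) with h | h
    · rw [h]
    · rw [h, Real.sin_neg, neg_sq]
  rw [← h2]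
  have h3 : |(n : ℝ)| / L ≤ Real.sin y := by
    refine le_trans (le_of_eq ?_) h1
    rw [← hy, hy1]
    field_simp
  have h4 : 4 * (n : ℝ) ^ 2 ≤ (L : ℝ) ^ 2 * (2 * Real.sin y) ^ 2 := by
    have h5 : |(n : ℝ)| ≤ L * Real.sin y := by
      rw [div_le_iff₀ hL0] at h3
      linarith
    have h6 : |(n : ℝ)| ^ 2 ≤ (L * Real.sin y) ^ 2 := pow_le_pow_left₀ (abs_nonneg _) h5 2
    rw [sq_abs] at h6
    nlinarith
  nlinarith

/-- Dirichlet conditions -/
lemma qD (L : ℕ) (hL : 2 ≤ L) (n m : ℤ) : qq (vD L) n m = -2 * Real.sin (Real.pi * m / L) *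
    ∑ k ∈ Finset.range L, Real.sin (n * (Real.pi * k / L + 0 / L)) * Real.cos (m * (Real.pi * k / L + 0 / L)) := by
  have hL0 : (L : ℝ) ≠ 0 := by positivity
  set x := Real.pi * m / L with hx
  set y := Real.pi * n / L with hy
  have h1 : ∀ i : Fin (L - 1), (km (L - 1) *ᵥ vD L m) i = -2 * Real.cos (x * ((i : ℕ) + 1)) * Real.sin x := by
    intro i
    have h := kmul (L - 1) (fun k : ℕ => Real.sin (x * ((k : ℝ) + 1))) i
    have e1 : (if 1 ≤ (i : ℕ) then Real.sin (x * ((((i : ℕ) - 1 : ℕ) : ℝ) + 1)) else 0) =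
        Real.sin (x * ((i : ℕ) + 1) - x) := by
      split_ifs with h0
      · congr 1
        rw [Nat.cast_sub h0]
        push_cast
        ring
      · have : (i : ℕ) = 0 := by omega
        rw [this]
        simp
    have e2 : (if (i : ℕ) + 1 < L - 1 then Real.sin (x * ((((i : ℕ) + 1 : ℕ) : ℝ) + 1)) else 0) =
        Real.sin (x * ((i : ℕ) + 1) + x) := by
      split_ifs with h0
      · congr 1
        push_cast
        ring
      · have h3 : (((i : ℕ) : ℝ) + 1) + 1 = L := by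
          have : (i : ℕ) + 1 + 1 = L := by have := i.2; omega
          exact_mod_cast this
        have h4 : x * ((i : ℕ) + 1) + x = m * Real.pi := by
          have : x * ((i : ℕ) + 1) + x = x * ((((i : ℕ) : ℝ) + 1) + 1) := by ring
          rw [this, h3, hx]
          field_simp
        rw [h4, Real.sin_int_mul_pi]
    try simp only at h
    rw [e1, e2] at h
    refine Eq.trans h ?_
    rw [Real.sin_sub, Real.sin_add]
    ring
  unfold qq dotProduct
  rw [Finset.sum_congr rfl fun i _ => by rw [h1 i]]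
  have h2 := Fin.sum_univ_eq_sum_range (fun k : ℕ => Real.sin (y * ((k : ℝ) + 1)) *
    (-2 * Real.cos (x * ((k : ℝ) + 1)) * Real.sin x)) (L - 1)
  refine Eq.trans h2 ?_
  obtain ⟨M, rfl⟩ : ∃ M, L = M + 1 := ⟨L - 1, by omega⟩
  rw [Nat.add_sub_cancel, Finset.mul_sum, Finset.sum_range_succ']
  simp only [Nat.cast_zero, mul_zero, zero_div, add_zero, Real.sin_zero, zero_mul]
  refine Finset.sum_congr rfl fun k _ => ?_
  have e3 : (n : ℝ) * (Real.pi * ((k + 1 : ℕ) : ℝ) / ((M + 1 : ℕ) : ℝ)) = y * (k + 1) := by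
    rw [hy]
    push_cast
    ring
  have e4 : (m : ℝ) * (Real.pi * ((k + 1 : ℕ) : ℝ) / ((M + 1 : ℕ) : ℝ)) = x * (k + 1) := by
    rw [hx]
    push_cast
    ring
  rw [e3, e4]
  ring

/-- Neumann conditions -/
lemma qN (L : ℕ) (hL : 2 ≤ L) (n m : ℤ) : qq (vN L) n m = 2 * Real.sin (Real.pi * m / L) *
    ∑ k ∈ Finset.range L, Real.cos (n * (Real.pi * k / L + (Real.pi / 2) / L)) *
      Real.sin (m * (Real.pi * k / L + (Real.pi / 2) / L)) -
    Real.cos (Real.pi * n / L * (1 / 2)) * Real.cos (Real.pi * m / L * (1 / 2)) +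
    Real.cos (n * Real.pi - Real.pi * n / L * (1 / 2)) * Real.cos (m * Real.pi + Real.pi * m / L * (1 / 2)) := by
  have hL0 : (L : ℝ) ≠ 0 := by positivity
  set x := Real.pi * m / L with hx
  set y := Real.pi * n / L with hy
  have hxL : x * L = m * Real.pi := by rw [hx]; field_simp
  have hyL : y * L = n * Real.pi := by rw [hy]; field_simp
  have h1 : ∀ i : Fin L, (km L *ᵥ vN L m) i = 2 * Real.sin (x * ((i : ℕ) + 1 / 2)) * Real.sin x -
      (if (i : ℕ) = 0 then Real.cos (x * (1 / 2)) else 0) +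
      (if (i : ℕ) = L - 1 then Real.cos (m * Real.pi + x * (1 / 2)) else 0) := by
    intro i
    have h := kmul L (fun k : ℕ => Real.cos (x * ((k : ℝ) + 1 / 2))) i
    have e1 : (if 1 ≤ (i : ℕ) then Real.cos (x * ((((i : ℕ) - 1 : ℕ) : ℝ) + 1 / 2)) else 0) =
        Real.cos (x * ((i : ℕ) + 1 / 2) - x) - (if (i : ℕ) = 0 then Real.cos (x * (1 / 2)) else 0) := by
      split_ifs with h0 h3 h3
      · omega
      · rw [sub_zero]
        congr 1
        rw [Nat.cast_sub h0]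
        push_cast
        ring
      · rw [h3, ← Real.cos_neg (x * (1 / 2))]
        have : x * (((0 : ℕ) : ℝ) + 1 / 2) - x = -(x * (1 / 2)) := by
          push_cast
          ring
        rw [this, sub_self]
      · omega
    have e2 : (if (i : ℕ) + 1 < L then Real.cos (x * ((((i : ℕ) + 1 : ℕ) : ℝ) + 1 / 2)) else 0) =
        Real.cos (x * ((i : ℕ) + 1 / 2) + x) -
          (if (i : ℕ) = L - 1 then Real.cos (m * Real.pi + x * (1 / 2)) else 0) := by
      have hi := i.2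
      split_ifs with h0 h3 h3
      · omega
      · rw [sub_zero]
        congr 1
        push_cast
        ring
      · have h3' : ((i : ℕ) : ℝ) + 1 = L := by
          have : (i : ℕ) + 1 = L := by omega
          exact_mod_cast this
        have : x * ((i : ℕ) + 1 / 2) + x = m * Real.pi + x * (1 / 2) := by
          rw [← hxL, ← h3']
          ring
        rw [this, sub_self]
      · omega
    try simp only at h
    rw [e1, e2] at h
    refine Eq.trans h ?_
    rw [Real.cos_sub (x * ((i : ℕ) + 1 / 2)) x, Real.cos_add (x * ((i : ℕ) + 1 / 2)) x]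
    ring
  unfold qq dotProduct
  rw [Finset.sum_congr rfl fun i _ => by rw [h1 i]]
  have h2 := Fin.sum_univ_eq_sum_range (fun k : ℕ => Real.cos (y * ((k : ℝ) + 1 / 2)) *
    (2 * Real.sin (x * ((k : ℝ) + 1 / 2)) * Real.sin x -
      (if k = 0 then Real.cos (x * (1 / 2)) else 0) +
      (if k = L - 1 then Real.cos (m * Real.pi + x * (1 / 2)) else 0))) L
  refine Eq.trans h2 ?_
  simp only [mul_add, mul_sub, mul_ite, mul_zero]
  rw [Finset.sum_add_distrib, Finset.sum_sub_distrib, Finset.sum_ite_eq', Finset.sum_ite_eq',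
    if_pos (Finset.mem_range.2 (by omega)), if_pos (Finset.mem_range.2 (by omega)), Finset.mul_sum]
  congr 1
  · congr 1
    · refine Finset.sum_congr rfl fun k _ => ?_
      have e3 : (n : ℝ) * (Real.pi * (k : ℝ) / (L : ℝ)) + (n : ℝ) * (Real.pi / 2 / (L : ℝ)) = y * k + y * (1 / 2) := by
        rw [hy]
        ring
      have e4 : (m : ℝ) * (Real.pi * (k : ℝ) / (L : ℝ)) + (m : ℝ) * (Real.pi / 2 / (L : ℝ)) = x * k + x * (1 / 2) := by
        rw [hx]
        ring
      rw [e3, e4]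
      ring
    · simp
  · congr 2
    rw [Nat.cast_sub (by omega), ← hyL]
    push_cast
    ring

/-- the limits -/
lemma qD_lim (n m : ℤ) : ∃ l, Tendsto (fun L : ℕ => qq (vD L) n m) atTop (𝓝 l) := by
  have h1 := rlim (fun x => Real.sin (n * x) * Real.cos (m * x)) (|(n : ℝ)| + |(m : ℝ)|) (by fun_prop)
    (fun x y => lipSC n m x y) 0 le_rfl
  have h2 := ((sinlim (Real.pi * m)).const_mul (-2)).mul h1
  refine ⟨_, h2.congr' ?_⟩
  filter_upwards [eventually_ge_atTop 2] with L hL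
  have hL0 : (L : ℝ) ≠ 0 := by positivity
  rw [qD L hL]
  field_simp

lemma lim0 (n : ℤ) : Tendsto (fun L : ℕ => Real.pi * (n : ℝ) / L * (1 / 2)) atTop (𝓝 0) := by
  have := (tendsto_const_div_atTop_nhds_zero_nat (Real.pi * (n : ℝ))).mul_const (1 / 2 : ℝ)
  rwa [zero_mul] at this

lemma qN_lim (n m : ℤ) : ∃ l, Tendsto (fun L : ℕ => qq (vN L) n m) atTop (𝓝 l) := by
  have h1 := rlim (fun x => Real.cos (n * x) * Real.sin (m * x)) (|(n : ℝ)| + |(m : ℝ)|) (by fun_prop)
    (fun x y => lipCS n m x y) (Real.pi / 2) (by positivity)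
  have h2 := ((sinlim (Real.pi * m)).const_mul 2).mul h1
  have h3 := (Real.continuous_cos.tendsto _).comp (lim0 n)
  have h4 := (Real.continuous_cos.tendsto _).comp (lim0 m)
  have h5 := (Real.continuous_cos.tendsto _).comp ((lim0 n).const_sub ((n : ℝ) * Real.pi))
  have h6 := (Real.continuous_cos.tendsto _).comp ((lim0 m).const_add ((m : ℝ) * Real.pi))
  refine ⟨_, ((h2.sub (h3.mul h4)).add (h5.mul h6)).congr' ?_⟩
  filter_upwards [eventually_ge_atTop 2] with L hL
  have hL0 : (L : ℝ) ≠ 0 := by positivity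
  rw [qN L hL]
  simp only [Function.comp]
  congr 2
  field_simp

lemma sin_le_div (L : ℕ) (hL : 2 ≤ L) (m : ℤ) : |Real.sin (Real.pi * m / L)| * L ≤ Real.pi * |(m : ℝ)| := by
  have hL0 : (0 : ℝ) < L := by positivity
  have h1 := Real.abs_sin_le_abs (x := Real.pi * m / L)
  rw [abs_div, abs_mul, abs_of_pos Real.pi_pos, abs_of_pos hL0] at h1
  rwa [le_div_iff₀ hL0] at h1

lemma sum_bd (L : ℕ) (g : ℕ → ℝ) (hg : ∀ k, |g k| ≤ 1) : |∑ k ∈ Finset.range L, g k| ≤ L := by
  refine (Finset.abs_sum_le_sum_abs _ _).trans ((Finset.sum_le_sum fun k _ => hg k).trans ?_)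
  simp

lemma pr_bd {a b : ℝ} (ha : |a| ≤ 1) (hb : |b| ≤ 1) : |a * b| ≤ 1 := by
  rw [abs_mul]
  exact mul_le_one₀ ha (abs_nonneg _) hb

lemma qD_bd (L : ℕ) (hL : 2 ≤ L) (n m : ℤ) : |qq (vD L) n m| ≤ 8 * (1 + |(m : ℝ)|) := by
  have h0 := abs_nonneg (m : ℝ)
  rw [qD L hL, abs_mul, abs_mul, abs_neg, abs_two]
  have h1 := sum_bd L (fun k : ℕ => Real.sin (n * (Real.pi * k / L + 0 / L)) *
    Real.cos (m * (Real.pi * k / L + 0 / L))) fun k => pr_bd (Real.abs_sin_le_one _) (Real.abs_cos_le_one _)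
  have h2 := sin_le_div L hL m
  have h3 := mul_le_mul_of_nonneg_left h1 (show 0 ≤ 2 * |Real.sin (Real.pi * m / L)| by positivity)
  have h4 := Real.pi_le_four
  nlinarith

lemma qN_bd (L : ℕ) (hL : 2 ≤ L) (n m : ℤ) : |qq (vN L) n m| ≤ 8 * (1 + |(m : ℝ)|) := by
  have h0 := abs_nonneg (m : ℝ)
  rw [qN L hL]
  refine (abs_add_le _ _).trans ?_
  have h7 := pr_bd (Real.abs_cos_le_one (n * Real.pi - Real.pi * n / L * (1 / 2)))
    (Real.abs_cos_le_one (m * Real.pi + Real.pi * m / L * (1 / 2)))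
  have h8 := pr_bd (Real.abs_cos_le_one (Real.pi * n / L * (1 / 2)))
    (Real.abs_cos_le_one (Real.pi * m / L * (1 / 2)))
  have h9 := abs_sub (2 * Real.sin (Real.pi * m / L) *
    ∑ k ∈ Finset.range L, Real.cos (n * (Real.pi * k / L + (Real.pi / 2) / L)) *
      Real.sin (m * (Real.pi * k / L + (Real.pi / 2) / L)))
    (Real.cos (Real.pi * n / L * (1 / 2)) * Real.cos (Real.pi * m / L * (1 / 2)))
  rw [abs_mul (2 * Real.sin (Real.pi * m / L)), abs_mul 2, abs_two] at h9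
  have h1 := sum_bd L (fun k : ℕ => Real.cos (n * (Real.pi * k / L + (Real.pi / 2) / L)) *
    Real.sin (m * (Real.pi * k / L + (Real.pi / 2) / L))) fun k =>
      pr_bd (Real.abs_cos_le_one _) (Real.abs_sin_le_one _)
  have h2 := sin_le_div L hL m
  have h3 := mul_le_mul_of_nonneg_left h1 (show 0 ≤ 2 * |Real.sin (Real.pi * m / L)| by positivity)
  have h4 := Real.pi_le_four
  nlinarith

lemma summ (t : ℝ) (ht : 0 < t) :
    Summable (fun n : ℤ => Real.exp (-(4 * t * (n : ℝ) ^ 2)) * (8 * (1 + |(n : ℝ)|))) := by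
  have h1 : Summable (fun n : ℕ => Real.exp (-(4 * t * (n : ℝ) ^ 2)) * (8 * (1 + (n : ℝ)))) := by
    have a0 := Real.summable_pow_mul_exp_neg_nat_mul 0 (show 0 < 4 * t by positivity)
    have a1 := Real.summable_pow_mul_exp_neg_nat_mul 1 (show 0 < 4 * t by positivity)
    refine Summable.of_nonneg_of_le (fun n => by positivity) (fun n => ?_) ((a0.add a1).mul_left 8)
    have h2 : Real.exp (-(4 * t * (n : ℝ) ^ 2)) ≤ Real.exp (-(4 * t) * n) := by
      apply Real.exp_le_exp.2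
      have h3 : (n : ℝ) ≤ (n : ℝ) ^ 2 := by
        have : n ≤ n ^ 2 := Nat.le_self_pow two_ne_zero n
        exact_mod_cast this
      nlinarith
    have h4 := mul_le_mul_of_nonneg_right h2 (show 0 ≤ 8 * (1 + (n : ℝ)) by positivity)
    refine h4.trans (le_of_eq ?_)
    ring
  refine Summable.of_nat_of_neg ?_ ?_
  · refine h1.congr fun n => ?_
    simp
  · refine h1.congr fun n => ?_
    simp

/-- the main limit -/
lemma main (N : ℕ → ℕ) (A : (L : ℕ) → Matrix (Fin (N L)) (Fin (N L)) ℝ) (v : (L : ℕ) → ℤ → Fin (N L) → ℝ)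
    (hA : ∀ L : ℕ, 2 ≤ L → ∀ τ : ℝ, hk (A L) τ =
      (1 / (L : ℝ)) • ∑ n ∈ TT L, EE L τ n • vecMulVec (v L n) (v L n))
    (hl : ∀ n m : ℤ, ∃ l, Tendsto (fun L : ℕ => qq (v L) n m) atTop (𝓝 l))
    (hb : ∀ L : ℕ, 2 ≤ L → ∀ n m : ℤ, |qq (v L) n m| ≤ 8 * (1 + |(m : ℝ)|))
    (t s : ℝ) (ht : 0 < t) (hs : 0 < s) :
    ∃ l, Tendsto (fun L : ℕ => (L : ℝ) ^ 2 * bb (A L) ((L : ℝ) ^ 2 * t) ((L : ℝ) ^ 2 * s)) atTop (𝓝 l) := by
  choose l hl using hl
  set f : ℕ → ℤ × ℤ → ℝ := fun L p => if p.1 ∈ TT L ∧ p.2 ∈ TT L then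
    -(EE L ((L : ℝ) ^ 2 * t) p.1 * EE L ((L : ℝ) ^ 2 * s) p.2 * (qq (v L) p.1 p.2 * qq (v L) p.2 p.1)) else 0
    with hf
  set g : ℤ × ℤ → ℝ := fun p => -(Real.exp (-t * (Real.pi * p.1) ^ 2) * Real.exp (-s * (Real.pi * p.2) ^ 2) *
    (l p.1 p.2 * l p.2 p.1)) with hg
  have hmem : ∀ n : ℤ, ∀ᶠ L : ℕ in atTop, n ∈ TT L := by
    intro n
    filter_upwards [eventually_ge_atTop (n.natAbs + 1)] with L hL
    rw [TT, Finset.mem_Ico]
    omega
  have hsum := (summ t ht).mul_of_nonneg (summ s hs) (fun n => by positivity) (fun n => by positivity)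
  have key := tendsto_tsum_of_dominated_convergence (f := f) (g := g) (𝓕 := atTop)
    (bound := fun p : ℤ × ℤ => Real.exp (-(4 * t * (p.1 : ℝ) ^ 2)) * (8 * (1 + |(p.1 : ℝ)|)) *
      (Real.exp (-(4 * s * (p.2 : ℝ) ^ 2)) * (8 * (1 + |(p.2 : ℝ)|)))) hsum ?_ ?_
  · refine ⟨_, key.congr' ?_⟩
    filter_upwards [eventually_ge_atTop 2] with L hL
    have hL0 : (L : ℝ) ≠ 0 := by positivity
    rw [bb_eq (A L) (1 / (L : ℝ)) (TT L) _ _ (v L) _ _ (hA L hL _) (hA L hL _),
      tsum_eq_sum (s := TT L ×ˢ TT L) (fun p hp => by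
        rw [Finset.mem_product] at hp
        exact if_neg hp), Finset.sum_product]
    have e : (L : ℝ) ^ 2 * (-(1 / (L : ℝ) * (1 / L)) * ∑ n ∈ TT L, ∑ m ∈ TT L,
        EE L ((L : ℝ) ^ 2 * t) n * EE L ((L : ℝ) ^ 2 * s) m * (qq (v L) n m * qq (v L) m n)) =
        ∑ n ∈ TT L, ∑ m ∈ TT L, -(EE L ((L : ℝ) ^ 2 * t) n * EE L ((L : ℝ) ^ 2 * s) m *
          (qq (v L) n m * qq (v L) m n)) := by
      simp only [Finset.sum_neg_distrib]
      field_simp
    rw [e]
    refine Finset.sum_congr rfl fun n hn => Finset.sum_congr rfl fun m hm => ?_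
    exact if_pos ⟨hn, hm⟩
  · intro p
    have h1 := (((EE_lim t p.1).mul (EE_lim s p.2)).mul ((hl p.1 p.2).mul (hl p.2 p.1))).neg
    refine h1.congr' ?_
    filter_upwards [hmem p.1, hmem p.2] with L h2 h3
    exact (if_pos ⟨h2, h3⟩).symm
  · filter_upwards [eventually_ge_atTop 2] with L hL p
    simp only [hf]
    split_ifs with hp
    · rw [Real.norm_eq_abs, abs_neg, abs_mul, abs_mul, abs_mul]
      have e1 := EE_bd t ht L (by omega) p.1 hp.1
      have e2 := EE_bd s hs L (by omega) p.2 hp.2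
      have p1 : 0 < EE L ((L : ℝ) ^ 2 * t) p.1 := Real.exp_pos _
      have p2 : 0 < EE L ((L : ℝ) ^ 2 * s) p.2 := Real.exp_pos _
      rw [abs_of_pos p1, abs_of_pos p2]
      have b1 := hb L hL p.1 p.2
      have b2 := hb L hL p.2 p.1
      calc EE L ((L : ℝ) ^ 2 * t) p.1 * EE L ((L : ℝ) ^ 2 * s) p.2 *
          (|qq (v L) p.1 p.2| * |qq (v L) p.2 p.1|) ≤
          Real.exp (-(4 * t * (p.1 : ℝ) ^ 2)) * Real.exp (-(4 * s * (p.2 : ℝ) ^ 2)) *
            ((8 * (1 + |(p.2 : ℝ)|)) * (8 * (1 + |(p.1 : ℝ)|))) := by gcongr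
        _ = _ := by ring
    · rw [norm_zero]
      positivity

end SBL

open SBL in
theorem tsb (hR : S_R) : Pool.Agent.H586.AF.EE.S_SB := by
  intro t s ht hs
  exact ⟨SBL.main (fun L => L - 1) lDD vD (hkD hR) qD_lim qD_bd t s ht hs,
    SBL.main (fun L => L) lNN vN (hkN hR) qN_lim qN_bd t s ht hs⟩

end

end Pool.Agent.H840.AH
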